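import Pool.Agent.X264.WN.Defs
import Pool.Agent.Y112.KD.Asym

/-!
# Inhomogeneous morphisms
-/

set_option autoImplicit false

open CategoryTheory Limits MonoidalCategory
open Pool.Agent.Y112.SR Pool.Agent.Y112.KD

namespace Pool.Agent.X264.WN

universe v u w

variable {C : Type u} [Category.{v} C] [Preadditive C] [MonoidalCategory C] [SymmetricCategory C]
  {K : Type w} [Field K]

/-- There is a morphism with nonzero realisation between two different tensor powers of `X`. -/
def HasInhomogeneous (R : SuperRealisation C K) (X : C) : Prop :=
  ∃ n m : ℕ, n ≠ m ∧ ∃ h : tp X n ⟶ tp X m, R.H.map h ≠ 0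

/-- The realisation of `X` does not vanish. -/
def NonzeroRealisation (R : SuperRealisation C K) (X : C) : Prop := ¬ IsZero (R.H.obj X)

end Pool.Agent.X264.WN
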