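import Pool.Agent.X264.DN.Defs

/-!
# Frobenius operators on realisations: definitions
-/

set_option autoImplicit false

open CategoryTheory Limits MonoidalCategory
open Pool.Agent.Y112.SR Pool.Agent.X264.DN

namespace Pool.Agent.X264.WN

universe v u w

/-- The element `x` of `K` is an algebraic number all of whose complex conjugates, i.e. images under
the embeddings into `ℂ` of the algebraic closure of `ℚ` in `K`, have absolute value `s`. -/
def IsWeil {K : Type w} [Field K] [CharZero K] (s : ℝ) (x : K) : Prop :=
  ∃ h : x ∈ algebraicClosure ℚ K, ∀ φ : algebraicClosure ℚ K →+* ℂ, ‖φ ⟨x, h⟩‖ = s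

variable {C : Type u} [Category.{v} C] [Preadditive C] [MonoidalCategory C] [SymmetricCategory C]
  {K : Type w} [Field K]

/-- The element `v` of the realisation of `X` is even. -/
def IsEven {R : SuperRealisation C K} {X : C} (v : Sp R X) : Prop := (R.par X).hom v = v

/-- The element `v` of the realisation of `X` is odd. -/
def IsOdd {R : SuperRealisation C K} {X : C} (v : Sp R X) : Prop := (R.par X).hom v = -v

/-- The product map of the realisation. -/
noncomputable def mulMap (R : SuperRealisation C K) (X Y : C) :
    TensorProduct K (Sp R X) (Sp R Y) →ₗ[K] Sp R (X ⊗ Y) :=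
  (Functor.LaxMonoidal.μ R.H X Y).hom

/-- The product of elements of the realisations of `X` and `Y`. -/
noncomputable def prod {R : SuperRealisation C K} {X Y : C} (v : Sp R X) (w : Sp R Y) :
    Sp R (X ⊗ Y) := mulMap R X Y (v ⊗ₜ[K] w)

/-- The operators `F` are compatible with the linear maps induced by morphisms. -/
def IsNatural {R : SuperRealisation C K} (F : ∀ X : C, Module.End K (Sp R X)) : Prop :=
  ∀ (X Y : C) (f : X ⟶ Y) (v : Sp R X), op R f (F X v) = F Y (op R f v)

/-- The operators `F` respect the even part and the odd part. -/
def RespectsParity {R : SuperRealisation C K} (F : ∀ X : C, Module.End K (Sp R X)) : Prop :=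
  ∀ (X : C) (v : Sp R X), (IsEven v → IsEven (F X v)) ∧ (IsOdd v → IsOdd (F X v))

/-- The operators `F` are multiplicative on the products with an even factor. -/
def MultiplicativeEven {R : SuperRealisation C K} (F : ∀ X : C, Module.End K (Sp R X)) : Prop :=
  ∀ (X Y : C) (v : Sp R X) (w : Sp R Y), IsEven v ∨ IsEven w →
    F (X ⊗ Y) (prod v w) = prod (F X v) (F Y w)

/-- The operators `F` are multiplicative up to the factor `c` on the products of two odd
elements. -/
def MultiplicativeOdd {R : SuperRealisation C K} (c : K) (F : ∀ X : C, Module.End K (Sp R X)) :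
    Prop :=
  ∀ (X Y : C) (v : Sp R X) (w : Sp R Y), IsOdd v → IsOdd w →
    F (X ⊗ Y) (prod v w) = c • prod (F X v) (F Y w)

/-- Frobenius operators on the realisations: natural operators which respect the even and the odd
part and which are multiplicative, up to the factor `c` on the products of two odd elements. -/
structure Frobenius (R : SuperRealisation C K) (c : K) where
  F : ∀ X : C, Module.End K (Sp R X)
  natural : IsNatural F
  parity : RespectsParity F
  unit : F (𝟙_ C) (unitClass R) = unitClass R
  even : MultiplicativeEven F
  odd : MultiplicativeOdd c F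

/-- The Weil conjecture for `X`: the eigenvalues of the Frobenius on the even (odd) part of the
realisation of `X` are algebraic numbers with complex conjugates of absolute value `1` (`s`). -/
def Weil [CharZero K] {R : SuperRealisation C K} {c : K} (Fr : Frobenius R c) (s : ℝ) (X : C) :
    Prop :=
  ∀ (x : K) (v : Sp R X), v ≠ 0 → Fr.F X v = x • v →
    (IsEven v → IsWeil 1 x) ∧ (IsOdd v → IsWeil s x)

end Pool.Agent.X264.WN
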