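import Pool.Agent.X264.WN.Defs
import Pool.Agent.X264.KF.Tensor

/-!
# Eigenvalues of Frobenius on realisations
-/

set_option autoImplicit false
set_option linter.unusedSectionVars false
set_option linter.unusedSimpArgs false
set_option backward.isDefEq.respectTransparency false
set_option backward.defeqAttrib.useBackward true

open CategoryTheory Limits MonoidalCategory
open Pool.Agent.Y112.SR Pool.Agent.Y112.KD Pool.Agent.X264.DN

namespace Pool.Agent.X264.WN

universe v u w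

section Num

variable {K : Type w} [Field K] [CharZero K]

lemma isWeil_one : IsWeil 1 (1 : K) := by
  refine ⟨one_mem _, fun φ => ?_⟩
  have h1 : (⟨1, one_mem _⟩ : algebraicClosure ℚ K) = 1 := rfl
  rw [h1, map_one, norm_one]

lemma IsWeil.mul {s t : ℝ} {x y : K} (hx : IsWeil s x) (hy : IsWeil t y) :
    IsWeil (s * t) (x * y) := by
  obtain ⟨hx, hx'⟩ := hx
  obtain ⟨hy, hy'⟩ := hy
  refine ⟨mul_mem hx hy, fun φ => ?_⟩
  have h1 : (⟨x * y, mul_mem hx hy⟩ : algebraicClosure ℚ K) = ⟨x, hx⟩ * ⟨y, hy⟩ := rfl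
  rw [h1, map_mul, norm_mul, hx', hy']

lemma IsWeil.inv {s : ℝ} {x : K} (hx : IsWeil s x) : IsWeil s⁻¹ x⁻¹ := by
  obtain ⟨hx, hx'⟩ := hx
  refine ⟨inv_mem hx, fun φ => ?_⟩
  have h1 : (⟨x⁻¹, inv_mem hx⟩ : algebraicClosure ℚ K) = (⟨x, hx⟩ : algebraicClosure ℚ K)⁻¹ := rfl
  rw [h1, map_inv₀, norm_inv, hx']

lemma IsWeil.ne_zero {s : ℝ} (hs : s ≠ 0) {x : K} (hx : IsWeil s x) : x ≠ 0 := by
  obtain ⟨hx, hx'⟩ := hx
  rintro rfl
  apply hs
  obtain ⟨φ⟩ : Nonempty (algebraicClosure ℚ K →+* ℂ) := by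
    have : Algebra.IsAlgebraic ℚ (algebraicClosure ℚ K) := inferInstance
    exact ⟨(IsAlgClosed.lift (M := ℂ) (R := ℚ) (S := algebraicClosure ℚ K)).toRingHom⟩
  rw [← hx' φ]
  have h1 : (⟨0, hx⟩ : algebraicClosure ℚ K) = 0 := rfl
  rw [h1, map_zero, norm_zero]

lemma IsWeil.of_pow {x : K} {n : ℕ} (hn : 0 < n) (h : IsWeil 1 (x ^ n)) : IsWeil 1 x := by
  obtain ⟨h1, h2⟩ := h
  have hx : x ∈ algebraicClosure ℚ K := by
    rw [mem_algebraicClosure_iff] at h1 ⊢
    exact IsAlgebraic.of_pow hn h1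
  refine ⟨hx, fun φ => ?_⟩
  have h3 : (⟨x ^ n, h1⟩ : algebraicClosure ℚ K) = ⟨x, hx⟩ ^ n := rfl
  have h4 := h2 φ
  rw [h3, map_pow, norm_pow] at h4
  exact (pow_eq_one_iff_of_nonneg (norm_nonneg _) hn.ne').mp h4

lemma IsWeil.div {x y : K} (hx : IsWeil 1 x) (hy : IsWeil 1 y) : IsWeil 1 (x / y) := by
  have h := hx.mul hy.inv
  rwa [inv_one, mul_one, ← div_eq_mul_inv] at h

lemma isWeil_root {c : ℚ} {s : ℝ} (hs : 0 ≤ s) (hc : (c : ℝ) * s ^ 2 = 1) {γ : K}
    (hγ : γ ^ 2 = (c : K)) : IsWeil s⁻¹ γ := by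
  have hs0 : s ≠ 0 := by
    rintro rfl
    norm_num at hc
  have hcc : ((c : K)) ∈ algebraicClosure ℚ K := by
    have h1 : (c : K) = algebraMap ℚ K c := rfl
    rw [h1]
    exact (algebraicClosure ℚ K).algebraMap_mem c
  have hx : γ ∈ algebraicClosure ℚ K := by
    rw [mem_algebraicClosure_iff]
    apply IsAlgebraic.of_pow (n := 2) (by norm_num)
    rw [hγ]
    exact mem_algebraicClosure_iff.mp hcc
  refine ⟨hx, fun φ => ?_⟩
  have h3 : (⟨γ, hx⟩ : algebraicClosure ℚ K) ^ 2 = (c : algebraicClosure ℚ K) := by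
    apply Subtype.ext
    rw [SubmonoidClass.coe_pow, hγ]
    rfl
  have h4 : ‖φ ⟨γ, hx⟩‖ ^ 2 = (s⁻¹) ^ 2 := by
    rw [← norm_pow, ← map_pow, h3, map_ratCast]
    have h5 : (c : ℝ) = (s⁻¹) ^ 2 := by
      field_simp
      linarith
    have h6 : (0 : ℝ) ≤ c := by rw [h5]; positivity
    rw [← Complex.ofReal_ratCast, Complex.norm_real, Real.norm_of_nonneg h6, h5]
  exact (pow_left_inj₀ (norm_nonneg _) (by positivity) (by norm_num)).mp h4

end Num

section Lin

variable {K : Type w} [Field K] [IsAlgClosed K]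

/-- `x` is an eigenvalue of `T`. -/
def Ev {H : Type w} [AddCommGroup H] [Module K H] (T : Module.End K H) (x : K) : Prop :=
  ∃ v : H, v ≠ 0 ∧ T v = x • v

variable {H : Type w} [AddCommGroup H] [Module K H] [Module.Finite K H]

/-- Operators have eigenvectors in nonzero stable subspaces. -/
lemma exists_ev_sub (T : Module.End K H) (E : Submodule K H) (hE : ∀ v ∈ E, T v ∈ E)
    (h0 : E ≠ ⊥) : ∃ (x : K) (v : H), v ∈ E ∧ v ≠ 0 ∧ T v = x • v := by
  have hnt : Nontrivial E := Submodule.nontrivial_iff_ne_bot.mpr h0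
  obtain ⟨x, hx⟩ := Module.End.exists_eigenvalue (T.restrict hE)
  obtain ⟨v, hv⟩ := hx.exists_hasEigenvector
  refine ⟨x, v, v.2, fun h => hv.2 (Subtype.ext h), ?_⟩
  exact congrArg Subtype.val hv.apply_eq_smul

lemma exists_ev [Nontrivial H] (T : Module.End K H) : ∃ x, Ev T x := by
  obtain ⟨x, v, -, h1, h2⟩ := exists_ev_sub T ⊤ (fun _ _ => trivial) top_ne_bot
  exact ⟨x, v, h1, h2⟩

/-- Eigenvalues of products of commuting operators. -/
lemma exists_common (A B : Module.End K H) (hAB : A * B = B * A) {x : K} (h : Ev (A * B) x) :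
    ∃ (a b : K) (v : H), v ≠ 0 ∧ A v = a • v ∧ B v = b • v ∧ x = a * b := by
  obtain ⟨z, hz0, hz⟩ := h
  let E : Submodule K H := LinearMap.ker (A * B - x • 1)
  have hmem : ∀ v, v ∈ E ↔ A (B v) = x • v := by
    intro v
    rw [LinearMap.mem_ker, LinearMap.sub_apply, Module.End.mul_apply, LinearMap.smul_apply,
      Module.End.one_apply, sub_eq_zero]
  have hc : ∀ v, A (B v) = B (A v) := fun v => LinearMap.congr_fun hAB v
  have hE0 : E ≠ ⊥ := by
    intro h0
    have h1 : z ∈ E := (hmem z).mpr hz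
    rw [h0, Submodule.mem_bot] at h1
    exact hz0 h1
  have hEA : ∀ v ∈ E, A v ∈ E := by
    intro v hv
    rw [hmem] at hv ⊢
    rw [← hc, hv, map_smul]
  obtain ⟨a, u, huE, hu0, hu⟩ := exists_ev_sub A E hEA hE0
  let E' : Submodule K H := E ⊓ LinearMap.ker (A - a • 1)
  have hmem' : ∀ v, v ∈ E' ↔ A (B v) = x • v ∧ A v = a • v := by
    intro v
    rw [Submodule.mem_inf, hmem, LinearMap.mem_ker, LinearMap.sub_apply, LinearMap.smul_apply,
      Module.End.one_apply, sub_eq_zero]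
  have hE'0 : E' ≠ ⊥ := by
    intro h0
    have h1 : u ∈ E' := (hmem' u).mpr ⟨(hmem u).mp huE, hu⟩
    rw [h0, Submodule.mem_bot] at h1
    exact hu0 h1
  have hEB : ∀ v ∈ E', B v ∈ E' := by
    intro v hv
    rw [hmem'] at hv ⊢
    refine ⟨?_, ?_⟩
    · rw [hc (B v), hv.1, map_smul]
    · rw [hc, hv.2, map_smul]
  obtain ⟨b, v, hvE, hv0, hv⟩ := exists_ev_sub B E' hEB hE'0
  rw [hmem'] at hvE
  refine ⟨a, b, v, hv0, hvE.2, hv, ?_⟩
  have h1 := hvE.1
  rw [hv, map_smul, hvE.2, smul_smul] at h1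
  have h2 : (b * a - x) • v = 0 := by rw [sub_smul, h1, sub_self]
  have h3 := (smul_eq_zero.mp h2).resolve_right hv0
  rw [mul_comm]
  exact (sub_eq_zero.mp h3).symm

/-- An operator without eigenvalue `x` has an inverse of `T - x`. -/
lemma exists_inv {T : Module.End K H} {x : K} (h : ¬ Ev T x) :
    ∃ G : Module.End K H, G * (T - x • 1) = 1 ∧ (T - x • 1) * G = 1 := by
  have hinj : Function.Injective (T - x • 1 : Module.End K H) := by
    rw [← LinearMap.ker_eq_bot, LinearMap.ker_eq_bot']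
    intro v hv
    by_contra h0
    apply h
    refine ⟨v, h0, ?_⟩
    rw [LinearMap.sub_apply, LinearMap.smul_apply, Module.End.one_apply, sub_eq_zero] at hv
    exact hv
  let e : H ≃ₗ[K] H := LinearEquiv.ofInjectiveEndo (T - x • 1) hinj
  have he : ∀ v, e v = (T - x • 1 : Module.End K H) v := fun v => rfl
  refine ⟨e.symm, ?_, ?_⟩
  · apply LinearMap.ext
    intro v
    exact e.symm_apply_apply v
  · apply LinearMap.ext
    intro v
    exact e.apply_symm_apply v

/-- Eigenvalues of tensor products of operators. -/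
lemma ev_tensor {H' : Type w} [AddCommGroup H'] [Module K H'] [Module.Finite K H']
    {S : Module.End K H} {T : Module.End K H'} {x : K} (h : Ev (TensorProduct.map S T) x) :
    ∃ a b, Ev S a ∧ Ev T b ∧ x = a * b := by
  let A : Module.End K (TensorProduct K H H') := TensorProduct.map S 1
  let B : Module.End K (TensorProduct K H H') := TensorProduct.map 1 T
  have h1 : A * B = TensorProduct.map S T := by
    rw [← TensorProduct.map_mul, mul_one, one_mul]
  have h2 : B * A = TensorProduct.map S T := by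
    rw [← TensorProduct.map_mul, mul_one, one_mul]
  obtain ⟨a, b, v, hv0, hA, hB, hx⟩ := exists_common A B (h1.trans h2.symm) (x := x)
    (by rw [h1]; exact h)
  refine ⟨a, b, ?_, ?_, hx⟩
  · by_contra h0
    obtain ⟨G, hG, -⟩ := exists_inv h0
    apply hv0
    have h3 : (TensorProduct.map G 1 : Module.End K (TensorProduct K H H')) *
        (A - a • 1) = 1 := by
      have h4 : A - a • 1 = TensorProduct.map (S - a • 1) 1 := by
        have h6 : TensorProduct.map (a • (1 : Module.End K H)) (1 : Module.End K H') =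
            (a • 1 : Module.End K (TensorProduct K H H')) := by
          rw [TensorProduct.map_smul_left, TensorProduct.map_one]
        have h5 : A = TensorProduct.map (S - a • 1) 1 + a • 1 := by
          rw [← h6, ← TensorProduct.map_add_left, sub_add_cancel]
        rw [h5, add_sub_cancel_right]
      rw [h4, ← TensorProduct.map_mul, hG, mul_one, TensorProduct.map_one]
    have h5 : (A - a • 1) v = 0 := by
      rw [LinearMap.sub_apply, hA, LinearMap.smul_apply, Module.End.one_apply, sub_self]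
    have h6 := LinearMap.congr_fun h3 v
    rw [Module.End.mul_apply, h5, map_zero, Module.End.one_apply] at h6
    exact h6.symm
  · by_contra h0
    obtain ⟨G, hG, -⟩ := exists_inv h0
    apply hv0
    have h3 : (TensorProduct.map 1 G : Module.End K (TensorProduct K H H')) *
        (B - b • 1) = 1 := by
      have h4 : B - b • 1 = TensorProduct.map 1 (T - b • 1) := by
        have h6 : TensorProduct.map (1 : Module.End K H) (b • (1 : Module.End K H')) =
            (b • 1 : Module.End K (TensorProduct K H H')) := by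
          rw [TensorProduct.map_smul_right, TensorProduct.map_one]
        have h5 : B = TensorProduct.map 1 (T - b • 1) + b • 1 := by
          rw [← h6, ← TensorProduct.map_add_right, sub_add_cancel]
        rw [h5, add_sub_cancel_right]
      rw [h4, ← TensorProduct.map_mul, hG, mul_one, TensorProduct.map_one]
    have h5 : (B - b • 1) v = 0 := by
      rw [LinearMap.sub_apply, hB, LinearMap.smul_apply, Module.End.one_apply, sub_self]
    have h6 := LinearMap.congr_fun h3 v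
    rw [Module.End.mul_apply, h5, map_zero, Module.End.one_apply] at h6
    exact h6.symm

/-- Intertwined operators have a common eigenvalue. -/
lemma ev_intertwine {H' : Type w} [AddCommGroup H'] [Module K H'] [Module.Finite K H']
    {S : Module.End K H} {T : Module.End K H'} (h : H →ₗ[K] H') (h0 : h ≠ 0)
    (hST : ∀ v, h (S v) = T (h v)) : ∃ x, Ev S x ∧ Ev T x := by
  have hE : ∀ v ∈ LinearMap.range h, T v ∈ LinearMap.range h := by
    rintro _ ⟨v, rfl⟩
    exact ⟨S v, hST v⟩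
  have hb : LinearMap.range h ≠ ⊥ := fun h1 => h0 (LinearMap.range_eq_bot.mp h1)
  obtain ⟨x, w', hw', hw0, hw⟩ := exists_ev_sub T _ hE hb
  refine ⟨x, ?_, w', hw0, hw⟩
  by_contra hS
  obtain ⟨G, -, hG⟩ := exists_inv hS
  -- `T - x` is surjective on the image
  let T' : Module.End K (LinearMap.range h) := T.restrict hE - x • 1
  have hsurj : Function.Surjective T' := by
    rintro ⟨_, v, rfl⟩
    refine ⟨⟨h (G v), G v, rfl⟩, ?_⟩
    apply Subtype.ext
    change T (h (G v)) - x • h (G v) = h v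
    have h1 : v = S (G v) - x • G v := by
      have h2 := LinearMap.congr_fun hG v
      exact h2.symm
    conv_rhs => rw [h1]
    rw [map_sub, map_smul, hST]
  have hinj : Function.Injective T' := LinearMap.injective_iff_surjective.mpr hsurj
  have h1 : T' ⟨w', hw'⟩ = 0 := by
    apply Subtype.ext
    change T w' - x • w' = 0
    rw [hw, sub_self]
  have h2 : (⟨w', hw'⟩ : LinearMap.range h) = 0 := hinj (by rw [h1, map_zero])
  exact hw0 (congrArg Subtype.val h2)

end Lin

section Real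

variable {C : Type u} [Category.{v} C] [Preadditive C] [MonoidalCategory C] [SymmetricCategory C]
  {K : Type w} [Field K] [CharZero K] {R : SuperRealisation C K}

lemma prod_add {X Y : C} (v : Sp R X) (w w' : Sp R Y) : prod v (w + w') = prod v w + prod v w' := by
  rw [prod, TensorProduct.tmul_add, map_add]
  rfl

lemma add_prod {X Y : C} (v v' : Sp R X) (w : Sp R Y) : prod (v + v') w = prod v w + prod v' w := by
  rw [prod, TensorProduct.add_tmul, map_add]
  rfl

lemma prod_smul {X Y : C} (a : K) (v : Sp R X) (w : Sp R Y) : prod v (a • w) = a • prod v w := by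
  rw [prod, TensorProduct.tmul_smul, map_smul]
  rfl

lemma smul_prod {X Y : C} (a : K) (v : Sp R X) (w : Sp R Y) : prod (a • v) w = a • prod v w := by
  rw [prod, ← TensorProduct.smul_tmul', map_smul]
  rfl

/-- The parity operator. -/
noncomputable def pr (X : C) : Module.End K (Sp R X) := (R.par X).hom

lemma pr_prod {X Y : C} (v : Sp R X) (w : Sp R Y) :
    pr (X ⊗ Y) (prod v w) = prod (pr X v) (pr Y w) := by
  have h := LinearMap.congr_fun (congrArg ModuleCat.Hom.hom (R.par_tensor X Y))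
    (v ⊗ₜ[K] w : TensorProduct K (R.H.obj X) (R.H.obj Y))
  exact h

lemma pr_pr {X : C} (v : Sp R X) : pr X (pr X v) = v :=
  LinearMap.congr_fun (congrArg ModuleCat.Hom.hom (R.par_sq X)) v

lemma isEven_iff {X : C} {v : Sp R X} : IsEven v ↔ pr X v = v := Iff.rfl

lemma isOdd_iff {X : C} {v : Sp R X} : IsOdd v ↔ pr X v = -v := Iff.rfl

/-- The even part of an element. -/
noncomputable def ev {X : C} (v : Sp R X) : Sp R X := (2⁻¹ : K) • (v + pr X v)

/-- The odd part of an element. -/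
noncomputable def od {X : C} (v : Sp R X) : Sp R X := (2⁻¹ : K) • (v - pr X v)

lemma ev_even {X : C} (v : Sp R X) : IsEven (ev v) := by
  rw [isEven_iff, ev, map_smul, map_add, pr_pr, add_comm]

lemma od_odd {X : C} (v : Sp R X) : IsOdd (od v) := by
  rw [isOdd_iff, od, map_smul, map_sub, pr_pr, ← smul_neg, neg_sub]

lemma ev_add_od {X : C} (v : Sp R X) : ev v + od v = v := by
  have h1 : ev v + od v = ((2⁻¹ : K) * 2) • v := by
    rw [ev, od]
    module
  rw [h1, inv_mul_cancel₀ two_ne_zero, one_smul]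

lemma IsEven.prod_even {X Y : C} {v : Sp R X} {w : Sp R Y} (hv : IsEven v) (hw : IsEven w) :
    IsEven (prod v w) := by
  rw [isEven_iff] at *
  rw [pr_prod, hv, hw]

lemma IsEven.prod_odd {X Y : C} {v : Sp R X} {w : Sp R Y} (hv : IsEven v) (hw : IsOdd w) :
    IsOdd (prod v w) := by
  rw [isEven_iff] at hv
  rw [isOdd_iff] at *
  rw [pr_prod, hv, hw, ← neg_one_smul K, prod_smul, neg_one_smul]

lemma IsOdd.prod_even {X Y : C} {v : Sp R X} {w : Sp R Y} (hv : IsOdd v) (hw : IsEven w) :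
    IsOdd (prod v w) := by
  rw [isEven_iff] at hw
  rw [isOdd_iff] at *
  rw [pr_prod, hv, hw, ← neg_one_smul K, smul_prod, neg_one_smul]

lemma IsOdd.prod_odd {X Y : C} {v : Sp R X} {w : Sp R Y} (hv : IsOdd v) (hw : IsOdd w) :
    IsEven (prod v w) := by
  rw [isOdd_iff] at hv hw
  rw [isEven_iff, pr_prod, hv, hw, ← neg_one_smul K v, ← neg_one_smul K w, prod_smul, smul_prod,
    smul_smul, neg_one_mul, neg_neg, one_smul]

variable {c : K} (Fr : Frobenius R c) (γ : K)

/-- The normalised Frobenius. -/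
noncomputable def Phi (X : C) : Module.End K (Sp R X) :=
  ((2⁻¹ * (1 + γ) : K) • (1 : Module.End K (Sp R X)) +
    (2⁻¹ * (1 - γ) : K) • pr X) * Fr.F X

lemma Phi_even {X : C} {v : Sp R X} (hv : IsEven v) : Phi Fr γ X v = Fr.F X v := by
  have h1 : pr X (Fr.F X v) = Fr.F X v := (Fr.parity X v).1 hv
  change (2⁻¹ * (1 + γ) : K) • (Fr.F X v) + (2⁻¹ * (1 - γ) : K) • (pr X (Fr.F X v)) = _
  rw [h1]
  have h2 : (2⁻¹ * (1 + γ) : K) • (Fr.F X v) + (2⁻¹ * (1 - γ) : K) • (Fr.F X v) =
      ((2⁻¹ : K) * 2) • (Fr.F X v) := by module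
  rw [inv_mul_cancel₀ two_ne_zero, one_smul] at h2
  exact h2

lemma Phi_odd {X : C} {v : Sp R X} (hv : IsOdd v) : Phi Fr γ X v = γ • Fr.F X v := by
  have h1 : pr X (Fr.F X v) = -Fr.F X v := (Fr.parity X v).2 hv
  change (2⁻¹ * (1 + γ) : K) • (Fr.F X v) + (2⁻¹ * (1 - γ) : K) • (pr X (Fr.F X v)) = _
  rw [h1]
  have h2 : (2⁻¹ * (1 + γ) : K) • (Fr.F X v) + (2⁻¹ * (1 - γ) : K) • (-(Fr.F X v)) =
      ((2⁻¹ : K) * 2 * γ) • (Fr.F X v) := by module
  rw [inv_mul_cancel₀ two_ne_zero, one_mul] at h2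
  exact h2

lemma Phi_prod (hγ : γ ^ 2 = c) {X Y : C} (v : Sp R X) (w : Sp R Y) :
    Phi Fr γ (X ⊗ Y) (prod v w) = prod (Phi Fr γ X v) (Phi Fr γ Y w) := by
  have hee : ∀ (v : Sp R X) (w : Sp R Y), IsEven v → IsEven w →
      Phi Fr γ (X ⊗ Y) (prod v w) = prod (Phi Fr γ X v) (Phi Fr γ Y w) := by
    intro v w hv hw
    rw [Phi_even _ _ (hv.prod_even hw), Phi_even _ _ hv, Phi_even _ _ hw,
      Fr.even _ _ _ _ (Or.inl hv)]
  have heo : ∀ (v : Sp R X) (w : Sp R Y), IsEven v → IsOdd w →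
      Phi Fr γ (X ⊗ Y) (prod v w) = prod (Phi Fr γ X v) (Phi Fr γ Y w) := by
    intro v w hv hw
    rw [Phi_odd _ _ (hv.prod_odd hw), Phi_even _ _ hv, Phi_odd _ _ hw,
      Fr.even _ _ _ _ (Or.inl hv), prod_smul]
  have hoe : ∀ (v : Sp R X) (w : Sp R Y), IsOdd v → IsEven w →
      Phi Fr γ (X ⊗ Y) (prod v w) = prod (Phi Fr γ X v) (Phi Fr γ Y w) := by
    intro v w hv hw
    rw [Phi_odd _ _ (hv.prod_even hw), Phi_odd _ _ hv, Phi_even _ _ hw,
      Fr.even _ _ _ _ (Or.inr hw), smul_prod]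
  have hoo : ∀ (v : Sp R X) (w : Sp R Y), IsOdd v → IsOdd w →
      Phi Fr γ (X ⊗ Y) (prod v w) = prod (Phi Fr γ X v) (Phi Fr γ Y w) := by
    intro v w hv hw
    rw [Phi_even _ _ (hv.prod_odd hw), Phi_odd _ _ hv, Phi_odd _ _ hw, Fr.odd _ _ _ _ hv hw,
      prod_smul, smul_prod, smul_smul, ← pow_two, hγ]
  conv_lhs => rw [← ev_add_od v, ← ev_add_od w]
  conv_rhs => rw [← ev_add_od v, ← ev_add_od w]
  rw [add_prod, prod_add, prod_add, map_add, map_add, map_add, map_add, map_add, add_prod,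
    prod_add, prod_add, hee _ _ (ev_even v) (ev_even w), heo _ _ (ev_even v) (od_odd w),
    hoe _ _ (od_odd v) (ev_even w), hoo _ _ (od_odd v) (od_odd w)]

lemma op_pr {X Y : C} (f : X ⟶ Y) (v : Sp R X) : op R f (pr X v) = pr Y (op R f v) :=
  (LinearMap.congr_fun (congrArg ModuleCat.Hom.hom (R.par_natural f)) v).symm

lemma Phi_natural {X Y : C} (f : X ⟶ Y) (v : Sp R X) :
    op R f (Phi Fr γ X v) = Phi Fr γ Y (op R f v) := by
  change op R f ((2⁻¹ * (1 + γ) : K) • (Fr.F X v) + (2⁻¹ * (1 - γ) : K) • (pr X (Fr.F X v))) =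
    (2⁻¹ * (1 + γ) : K) • (Fr.F Y (op R f v)) + (2⁻¹ * (1 - γ) : K) • (pr Y (Fr.F Y (op R f v)))
  rw [map_add, map_smul, map_smul, op_pr, Fr.natural]

lemma mulMap_bijective (X Y : C) : Function.Bijective (mulMap R X Y) := by
  have h := (Functor.Monoidal.μIso R.H X Y).toLinearEquiv.bijective
  exact h

lemma unit_even : IsEven (unitClass R) := by
  have h := R.par_unit
  change (R.par (𝟙_ C)).hom (unitClass R) = unitClass R
  rw [h]
  rfl

lemma unit_span (v : Sp R (𝟙_ C)) : ∃ a : K, v = a • unitClass R := by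
  refine ⟨(Functor.OplaxMonoidal.η R.H).hom v, ?_⟩
  have h := Functor.Monoidal.η_ε R.H
  have h1 : (Functor.LaxMonoidal.ε R.H).hom ((Functor.OplaxMonoidal.η R.H).hom v) = v :=
    LinearMap.congr_fun (congrArg ModuleCat.Hom.hom h) v
  rw [unitClass]
  have h2 : (Functor.LaxMonoidal.ε R.H).hom (((Functor.OplaxMonoidal.η R.H).hom v) • (1 : K)) =
      ((Functor.OplaxMonoidal.η R.H).hom v) • (Functor.LaxMonoidal.ε R.H).hom (1 : K) :=
    map_smul _ _ _
  rw [smul_eq_mul, mul_one, h1] at h2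
  exact h2

lemma ev_unit {x : K} (h : Ev (Phi Fr γ (𝟙_ C)) x) : x = 1 := by
  obtain ⟨v, hv0, hv⟩ := h
  obtain ⟨a, rfl⟩ := unit_span v
  rw [map_smul, Phi_even _ _ unit_even, Fr.unit] at hv
  have h1 : (x - 1) • (a • unitClass R) = 0 := by rw [sub_smul, ← hv, one_smul, sub_self]
  exact sub_eq_zero.mp ((smul_eq_zero.mp h1).resolve_right hv0)

lemma ev_prod (hγ : γ ^ 2 = c) {X Y : C} {a b : K} (ha : Ev (Phi Fr γ X) a)
    (hb : Ev (Phi Fr γ Y) b) : Ev (Phi Fr γ (X ⊗ Y)) (a * b) := by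
  obtain ⟨v, hv0, hv⟩ := ha
  obtain ⟨w, hw0, hw⟩ := hb
  refine ⟨prod v w, ?_, ?_⟩
  · intro h
    have h1 : (v ⊗ₜ[K] w : TensorProduct K (Sp R X) (Sp R Y)) = 0 :=
      (mulMap_bijective X Y).1 (by rw [map_zero]; exact h)
    exact Pool.Agent.X264.KF.tmul_ne hv0 hw0 h1
  · rw [Phi_prod Fr γ hγ, hv, hw, prod_smul, smul_prod, smul_smul, mul_comm]

variable [IsAlgClosed K]

lemma ev_of_prod (hγ : γ ^ 2 = c) {X Y : C} {x : K} (h : Ev (Phi Fr γ (X ⊗ Y)) x) :
    ∃ a b, Ev (Phi Fr γ X) a ∧ Ev (Phi Fr γ Y) b ∧ x = a * b := by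
  have hf : Module.Finite K (Sp R X) := R.finite X
  have hf' : Module.Finite K (Sp R Y) := R.finite Y
  apply ev_tensor
  obtain ⟨z, hz0, hz⟩ := h
  obtain ⟨t, rfl⟩ := (mulMap_bijective X Y).2 z
  refine ⟨t, fun h => hz0 (by rw [h, map_zero]), ?_⟩
  apply (mulMap_bijective X Y).1
  rw [map_smul, ← hz]
  induction t using TensorProduct.induction_on with
  | zero => simp only [map_zero]
  | add a b ha hb =>
    have key : ∀ t : TensorProduct K (Sp R X) (Sp R Y),
        mulMap R X Y (TensorProduct.map (Phi Fr γ X) (Phi Fr γ Y) t) =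
        Phi Fr γ (X ⊗ Y) (mulMap R X Y t) := by
      intro t
      induction t using TensorProduct.induction_on with
      | zero => simp only [map_zero]
      | add a b ha hb => simp only [map_add, ha, hb]
      | tmul v w => exact (Phi_prod Fr γ hγ v w).symm
    exact key _
  | tmul v w => exact (Phi_prod Fr γ hγ v w).symm

lemma ev_tp_pow (hγ : γ ^ 2 = c) {X : C} {a : K} (ha : Ev (Phi Fr γ X) a) (n : ℕ) :
    Ev (Phi Fr γ (tp X n)) (a ^ n) := by
  induction n with
  | zero =>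
    rw [pow_zero]
    refine ⟨unitClass R, ?_, ?_⟩
    · intro h
      have h1 : (Functor.OplaxMonoidal.η R.H).hom ((Functor.LaxMonoidal.ε R.H).hom (1 : K)) =
          (1 : K) := by
        have h2 := LinearMap.congr_fun (congrArg ModuleCat.Hom.hom
          (Functor.Monoidal.ε_η R.H)) (1 : K)
        exact h2
      have h2 : (Functor.LaxMonoidal.ε R.H).hom (1 : K) = 0 := h
      rw [h2, map_zero] at h1
      exact zero_ne_one h1
    · rw [one_smul]
      change Phi Fr γ (𝟙_ C) (unitClass R) = unitClass R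
      rw [Phi_even _ _ unit_even, Fr.unit]
  | succ n ih =>
    rw [pow_succ]
    exact ev_prod Fr γ hγ ih ha

lemma exists_ev_obj {X : C} (h : ¬ IsZero (R.H.obj X)) : ∃ x, Ev (Phi Fr γ X) x := by
  have hf : Module.Finite K (Sp R X) := R.finite X
  have hn : Nontrivial (Sp R X) := by
    by_contra h1
    rw [not_nontrivial_iff_subsingleton] at h1
    apply h
    have h2 : Subsingleton (R.H.obj X) := h1
    exact ModuleCat.isZero_of_subsingleton _
  exact exists_ev _

lemma ev_common {X Y : C} (f : X ⟶ Y) (h : R.H.map f ≠ 0) :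
    ∃ x, Ev (Phi Fr γ X) x ∧ Ev (Phi Fr γ Y) x := by
  have hf : Module.Finite K (Sp R X) := R.finite X
  have hf' : Module.Finite K (Sp R Y) := R.finite Y
  refine ev_intertwine (op R f) ?_ (Phi_natural Fr γ f)
  intro h0
  exact h (ModuleCat.hom_ext h0)

end Real

section Weil

variable {C : Type u} [Category.{v} C] [Preadditive C] [MonoidalCategory C] [SymmetricCategory C]
  {K : Type w} [Field K] [CharZero K] [IsAlgClosed K] {R : SuperRealisation C K}

lemma weil_iff {c : ℚ} {s : ℝ} (hs : 0 ≤ s) (hc : (c : ℝ) * s ^ 2 = 1)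
    (Fr : Frobenius R (c : K)) {γ : K} (hγ : γ ^ 2 = (c : K)) (X : C) :
    Weil Fr s X ↔ ∀ x, Ev (Phi Fr γ X) x → IsWeil 1 x := by
  have hs0 : s ≠ 0 := by
    rintro rfl
    norm_num at hc
  have hγW := isWeil_root hs hc hγ
  have hγ0 : γ ≠ 0 := hγW.ne_zero (inv_ne_zero hs0)
  constructor
  · rintro h x ⟨v, hv0, hv⟩
    -- the parts of the eigenvector
    have h1 : Phi Fr γ X (ev v) = x • ev v ∧ Phi Fr γ X (od v) = x • od v := by
      have h2 : pr X (Phi Fr γ X v) = Phi Fr γ X (pr X v) := by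
        have h3 : ∀ u : Sp R X, pr X (Fr.F X u) = Fr.F X (pr X u) := by
          intro u
          have h4 : pr X (ev u) = ev u := ev_even u
          have h5 : pr X (od u) = -od u := od_odd u
          have h6 : pr X (Fr.F X (ev u)) = Fr.F X (ev u) := (Fr.parity X _).1 (ev_even u)
          have h7 : pr X (Fr.F X (od u)) = -Fr.F X (od u) := (Fr.parity X _).2 (od_odd u)
          rw [← ev_add_od u, map_add, map_add, map_add, map_add, h4, h5, h6, h7, map_neg]
        change pr X ((2⁻¹ * (1 + γ) : K) • (Fr.F X v) +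
          (2⁻¹ * (1 - γ) : K) • (pr X (Fr.F X v))) = (2⁻¹ * (1 + γ) : K) • (Fr.F X (pr X v)) +
          (2⁻¹ * (1 - γ) : K) • (pr X (Fr.F X (pr X v)))
        rw [map_add, map_smul, map_smul, h3, h3]
      constructor
      · rw [ev, map_smul, map_add, ← h2, hv, map_smul, ← smul_add, smul_comm]
      · rw [od, map_smul, map_sub, ← h2, hv, map_smul, ← smul_sub, smul_comm]
    by_cases he : ev v = 0
    · have ho : od v ≠ 0 := by
        intro h2
        apply hv0
        rw [← ev_add_od v, he, h2, add_zero]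
      have h2 := h1.2
      rw [Phi_odd _ _ (od_odd v)] at h2
      have h3 : Fr.F X (od v) = (γ⁻¹ * x) • od v := by
        rw [mul_smul, ← h2, smul_smul, inv_mul_cancel₀ hγ0, one_smul]
      have h4 := (h _ _ ho h3).2 (od_odd v)
      have h5 := hγW.mul h4
      rw [inv_mul_cancel₀ hs0, ← mul_assoc, mul_inv_cancel₀ hγ0, one_mul] at h5
      exact h5
    · have h2 := h1.1
      rw [Phi_even _ _ (ev_even v)] at h2
      exact (h _ _ he h2).1 (ev_even v)
  · intro h x v hv0 hv
    constructor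
    · intro he
      exact h x ⟨v, hv0, by rw [Phi_even _ _ he, hv]⟩
    · intro ho
      have h1 := h (γ * x) ⟨v, hv0, by rw [Phi_odd _ _ ho, hv, smul_smul]⟩
      have h2 := hγW.inv.mul h1
      rw [inv_inv, mul_one, ← mul_assoc, inv_mul_cancel₀ hγ0, one_mul] at h2
      exact h2

lemma exists_root (c : K) : ∃ γ : K, γ ^ 2 = c := by
  obtain ⟨z, hz⟩ := IsAlgClosed.exists_pow_nat_eq c (n := 2) (by norm_num)
  exact ⟨z, hz⟩

/-- Products. -/
theorem weil_tensor {c : ℚ} {s : ℝ} (hs : 0 ≤ s) (hc : (c : ℝ) * s ^ 2 = 1)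
    (Fr : Frobenius R (c : K)) {X Y : C} (hX : Weil Fr s X) (hY : Weil Fr s Y) :
    Weil Fr s (X ⊗ Y) := by
  obtain ⟨γ, hγ⟩ := exists_root (c : K)
  rw [weil_iff hs hc Fr hγ] at *
  intro x hx
  obtain ⟨a, b, ha, hb, rfl⟩ := ev_of_prod Fr γ hγ hx
  have h := (hX a ha).mul (hY b hb)
  rwa [one_mul] at h

/-- Tensor powers. -/
theorem weil_pow {c : ℚ} {s : ℝ} (hs : 0 ≤ s) (hc : (c : ℝ) * s ^ 2 = 1)
    (Fr : Frobenius R (c : K)) {X : C} {n : ℕ} (hn : 0 < n) :
    Weil Fr s (tp X n) ↔ Weil Fr s X := by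
  obtain ⟨γ, hγ⟩ := exists_root (c : K)
  rw [weil_iff hs hc Fr hγ, weil_iff hs hc Fr hγ]
  constructor
  · intro h x hx
    exact (h _ (ev_tp_pow Fr γ hγ hx n)).of_pow hn
  · intro h
    have key : ∀ m : ℕ, ∀ x, Ev (Phi Fr γ (tp X m)) x → IsWeil 1 x := by
      intro m
      induction m with
      | zero =>
        intro x hx
        rw [ev_unit Fr γ hx]
        exact isWeil_one
      | succ m ih =>
        intro x hx
        obtain ⟨a, b, ha, hb, rfl⟩ := ev_of_prod Fr γ hγ hx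
        have h1 := (ih a ha).mul (h b hb)
        rwa [one_mul] at h1
    exact key n

/-- Descent along tensor products in the presence of an inhomogeneous morphism. -/
theorem weil_descent {c : ℚ} {s : ℝ} (hs : 0 ≤ s) (hc : (c : ℝ) * s ^ 2 = 1)
    (Fr : Frobenius R (c : K)) {X Y : C} (hXY : Weil Fr s (X ⊗ Y)) (hY : ¬ IsZero (R.H.obj Y))
    {n m : ℕ} (hnm : n ≠ m) (h : tp X n ⟶ tp X m) (h0 : R.H.map h ≠ 0) :
    Weil Fr s X ∧ Weil Fr s Y := by
  obtain ⟨γ, hγ⟩ := exists_root (c : K)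
  rw [weil_iff hs hc Fr hγ] at hXY
  rw [weil_iff hs hc Fr hγ, weil_iff hs hc Fr hγ]
  obtain ⟨b, hb⟩ := exists_ev_obj Fr γ hY
  have hb0 : ∀ a, Ev (Phi Fr γ X) a → a ≠ 0 ∧ b ≠ 0 := by
    intro a ha
    have h1 := (hXY _ (ev_prod Fr γ hγ ha hb)).ne_zero one_ne_zero
    exact ⟨left_ne_zero_of_mul h1, right_ne_zero_of_mul h1⟩
  have hrat : ∀ a a', Ev (Phi Fr γ X) a → Ev (Phi Fr γ X) a' → IsWeil 1 (a / a') := by
    intro a a' ha ha'
    have h1 := (hXY _ (ev_prod Fr γ hγ ha hb)).div (hXY _ (ev_prod Fr γ hγ ha' hb))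
    rwa [mul_div_mul_right _ _ (hb0 a ha).2] at h1
  obtain ⟨x, hx, hx'⟩ := ev_common Fr γ h h0
  -- an eigenvalue for `X`
  obtain ⟨a, ha⟩ : ∃ a, Ev (Phi Fr γ X) a := by
    have key : ∀ k, 0 < k → Ev (Phi Fr γ (tp X k)) x → ∃ a, Ev (Phi Fr γ X) a := by
      intro k hk hx
      obtain ⟨j, rfl⟩ := Nat.exists_eq_succ_of_ne_zero hk.ne'
      obtain ⟨-, a, -, ha, -⟩ := ev_of_prod Fr γ hγ (X := tp X j) (Y := X) hx
      exact ⟨a, ha⟩
    rcases Nat.eq_zero_or_pos n with h1 | h1
    · exact key m (Nat.pos_of_ne_zero (by rintro rfl; exact hnm h1)) hx'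
    · exact key n h1 hx
  have ha0 := (hb0 a ha).1
  have hpow : ∀ k, ∀ y, Ev (Phi Fr γ (tp X k)) y → IsWeil 1 (y / a ^ k) := by
    intro k
    induction k with
    | zero =>
      intro y hy
      rw [ev_unit Fr γ hy, pow_zero, div_one]
      exact isWeil_one
    | succ k ih =>
      intro y hy
      obtain ⟨y', d, hy', hd, rfl⟩ := ev_of_prod Fr γ hγ (X := tp X k) (Y := X) hy
      have h1 := (ih y' hy').mul (hrat d a hd ha)
      rw [one_mul, div_mul_div_comm, ← pow_succ] at h1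
      exact h1
  have h1 := hpow n x hx
  have h2 := hpow m x hx'
  have hx0 : x ≠ 0 := by
    intro h3
    rw [h3, zero_div] at h1
    exact h1.ne_zero one_ne_zero rfl
  have haW : IsWeil 1 a := by
    rcases lt_or_gt_of_ne hnm with h3 | h3
    · have h4 := h1.div h2
      have h5 : x / a ^ n / (x / a ^ m) = a ^ (m - n) := by
        rw [div_div_div_cancel_left' _ _ hx0, div_eq_mul_inv, pow_sub₀ _ ha0 h3.le]
      rw [h5] at h4
      exact h4.of_pow (by omega)
    · have h4 := h2.div h1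
      have h5 : x / a ^ m / (x / a ^ n) = a ^ (n - m) := by
        rw [div_div_div_cancel_left' _ _ hx0, div_eq_mul_inv, pow_sub₀ _ ha0 h3.le]
      rw [h5] at h4
      exact h4.of_pow (by omega)
  constructor
  · intro y hy
    have h3 := haW.mul (hrat y a hy ha)
    rwa [one_mul, mul_div_cancel₀ _ ha0] at h3
  · intro y hy
    have h3 := (hXY _ (ev_prod Fr γ hγ ha hy)).div haW
    rwa [mul_div_cancel_left₀ _ ha0] at h3

end Weil

end Pool.Agent.X264.WN
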